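import Pool.Agent.Lib.QM82.T_SPAN

/-! The pull back of a theta function by twice a similitude of the lattice is, up to an exponential
factor, a polynomial in the sixteen theta functions. -/

open Complex MvPolynomial
open scoped Real ComplexConjugate

noncomputable section

namespace Pool.Agent.Lib.QM44

open Pool.Agent.Lib.ECM Pool.Agent.Lib.QM82

/-- the weight: degree and sum of the characteristics -/
def wt (h : Ch) : ℕ × Ch := (1, h)

def St_RDC : Prop := ∀ τ ∈ H2, ∀ n : ℕ, ∀ G ∈ Gs τ n, ∃ P : MvPolynomial Ch ℂ,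
  P.IsWeightedHomogeneous wt (n, 0) ∧ ∀ z, G z = MvPolynomial.eval (fun h ↦ th h τ z) P

def St_AUT : Prop := ∀ τ ∈ H2, ∀ (M : V2 →ₗ[ℂ] V2) (D : ℕ), (∀ z ∈ Lat τ, M z ∈ Lat τ) →
  (∀ u, Hn τ (M u) = D * Hn τ u) → ∃ q : T3, ∀ m,
    Lev τ (4 * D) fun z ↦ th m τ ((2 : ℂ) • M z) * exp (Qf q z)

def St_RAT : Prop := ∀ τ ∈ H2, ∀ (M : V2 →ₗ[ℂ] V2) (D : ℕ), (∀ z ∈ Lat τ, M z ∈ Lat τ) →
  (∀ u, Hn τ (M u) = D * Hn τ u) → ∃ (q : T3) (P : Ch → MvPolynomial Ch ℂ),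
    (∀ m, (P m).IsWeightedHomogeneous wt (4 * D, 0)) ∧ ∀ m z,
      th m τ ((2 : ℂ) • M z) * exp (Qf q z) = MvPolynomial.eval (fun h ↦ th h τ z) (P m)

namespace XAUT

/-- the symplectic pairing of two lattice vectors -/
def Ez (m n m' n' : ℤ × ℤ) : ℤ := n.1 * m'.1 + n.2 * m'.2 - m.1 * n'.1 - m.2 * n'.2

theorem hn_symp {τ : T3} (hτ : τ ∈ H2) (m n m' n' : ℤ × ℤ) :
    Hn τ (per τ (iv m) (iv n) + I • per τ (iv m') (iv n')) -
      Hn τ (per τ (iv m) (iv n) - I • per τ (iv m') (iv n')) = 4 * (Ez m n m' n' : ℝ) := by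
  have hd : dY τ ≠ 0 := (sub_pos.2 hτ.2).ne'
  unfold Hn
  rw [← sub_div, div_eq_iff hd]
  simp only [per, iv, Ez, dY, normSq_apply, Pi.add_apply, Pi.sub_apply, Pi.smul_apply, smul_eq_mul,
    Matrix.cons_val_zero, Matrix.cons_val_one, add_re, add_im, sub_re, sub_im, mul_re, mul_im,
    conj_re, conj_im, I_re, I_im, intCast_re, intCast_im]
  push_cast
  ring

theorem ez_mul {τ : T3} (hτ : τ ∈ H2) {M : V2 →ₗ[ℂ] V2} {D : ℕ}
    (hH : ∀ u, Hn τ (M u) = D * Hn τ u) {m n m' n' a b a' b' : ℤ × ℤ}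
    (h : M (per τ (iv m) (iv n)) = per τ (iv a) (iv b))
    (h' : M (per τ (iv m') (iv n')) = per τ (iv a') (iv b')) :
    Ez a b a' b' = D * Ez m n m' n' := by
  have h1 := hn_symp hτ a b a' b'
  have h2 := hn_symp hτ m n m' n'
  rw [← h, ← h', ← map_smul, ← map_add, ← map_sub, hH, hH, ← mul_sub, h2] at h1
  have h3 : ((Ez a b a' b' : ℤ) : ℝ) = ((D * Ez m n m' n' : ℤ) : ℝ) := by
    push_cast
    linarith
  exact_mod_cast h3

theorem lin (M : V2 →ₗ[ℂ] V2) (τ : T3) (z : V2) :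
    M z = z 0 • M (per τ (iv (1, 0)) (iv (0, 0))) + z 1 • M (per τ (iv (0, 1)) (iv (0, 0))) := by
  rw [← map_smul, ← map_smul, ← map_add]
  congr 1
  funext i
  fin_cases i <;> simp [per, iv]

theorem qf_diff (q : T3) : Differentiable ℂ (Qf q) := by
  unfold Qf
  fun_prop

end XAUT

open XAUT in
theorem st_AUT (hB : St_BAS) : St_AUT := by
  intro τ hτ M D hL hH
  obtain ⟨a0, c0, h0⟩ := hL _ ⟨(1, 0), (0, 0), rfl⟩
  obtain ⟨a1, c1, h1⟩ := hL _ ⟨(0, 1), (0, 0), rfl⟩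
  have hs : ((Ez a0 c0 a1 c1 : ℤ) : ℂ) = 0 := by
    rw [ez_mul hτ hH h0 h1]
    simp [Ez]
  refine ⟨![4 * π * I * dot (iv c0) (per τ (iv a0) (iv c0)),
    4 * π * I * dot (iv c1) (per τ (iv a0) (iv c0)),
    4 * π * I * dot (iv c1) (per τ (iv a1) (iv c1))], fun m ↦ ⟨?_, fun μ ν z ↦ ?_⟩⟩
  · have hM : Differentiable ℂ fun z ↦ (2 : ℂ) • M z :=
      (LinearMap.toContinuousLinearMap M).differentiable.fun_const_smul (2 : ℂ)
    exact ((hB.diff_th m τ hτ).comp hM).mul (qf_diff _).cexp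
  obtain ⟨μ', ν', h2⟩ := hL _ ⟨μ, ν, rfl⟩
  have e0 : ((Ez a0 c0 μ' ν' : ℤ) : ℂ) = -(D * ν.1) := by
    rw [ez_mul hτ hH h0 h2]
    simp [Ez]
  have e1 : ((Ez a1 c1 μ' ν' : ℤ) : ℂ) = -(D * ν.2) := by
    rw [ez_mul hτ hH h1 h2]
    simp [Ez]
  have hl := lin M τ (per τ (iv μ) (iv ν))
  rw [h2, h0, h1] at hl
  have l0 := congrFun hl 0
  have l1 := congrFun hl 1
  have hz := lin M τ z
  rw [h0, h1] at hz
  have e2 : (2 : ℂ) • M (z + per τ (iv μ) (iv ν)) =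
      (2 : ℂ) • M z + per τ (iv (2 * μ'.1, 2 * μ'.2)) (iv (2 * ν'.1, 2 * ν'.2)) := by
    rw [map_add, h2, smul_add]
    congr 1
    funext i
    fin_cases i <;> simp [per, iv] <;> ring
  simp only
  rw [e2, hB.th_per, mul_right_comm, mul_comm (th m τ _), ← mul_assoc, ← exp_add, ← exp_add,
    ← exp_add]
  congr 1
  rw [exp_eq_exp_iff_exists_int]
  refine ⟨m.1.val * μ'.1 + m.2.1.val * μ'.2 - m.2.2.1.val * ν'.1 - m.2.2.2.val * ν'.2 +
    2 * (μ'.1 * ν'.1 + μ'.2 * ν'.2) - 2 * D * (μ.1 * ν.1 + μ.2 * ν.2), ?_⟩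
  rw [hz]
  simp only [Ez, per, iv, dot, Qf, ca, cb, Pi.add_apply, Pi.smul_apply, smul_eq_mul,
    Matrix.cons_val_zero, Matrix.cons_val_one, Matrix.cons_val_two, Matrix.head_cons,
    Matrix.tail_cons] at hs e0 e1 l0 l1 ⊢
  push_cast at hs e0 e1 l0 l1 ⊢
  set x0 : ℂ := μ.1 + τ 0 * ν.1 + τ 1 * ν.2 with hx0
  set x1 : ℂ := μ.2 + τ 1 * ν.1 + τ 2 * ν.2 with hx1
  linear_combination
    (-(4 * π * I) * ((2 * z 0 + x0) * c0.1 + (2 * z 1 + x1) * c1.1 + ν'.1)) * l0 +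
    (-(4 * π * I) * ((2 * z 0 + x0) * c0.2 + (2 * z 1 + x1) * c1.2 + ν'.2)) * l1 +
    (-(4 * π * I) * ((2 * z 0 + x0) * x1)) * hs +
    (4 * π * I * (2 * z 0 + x0)) * e0 + (4 * π * I * (2 * z 1 + x1)) * e1 +
    (-(4 * π * I) * D * ν.1) * hx0 + (-(4 * π * I) * D * ν.2) * hx1

namespace XRDC

theorem ca_zero : ca 0 = 0 := by
  funext i
  fin_cases i <;> simp [ca]

theorem cb_zero : cb 0 = 0 := by
  funext i
  fin_cases i <;> simp [cb]

/-- every theta function is a translate of the first one up to a unit -/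
theorem th_tr (hB : St_BAS) (τ : T3) (m : Ch) (z : V2) :
    th 0 τ (z + cb m + per τ 0 (ca m)) =
      exp (-π * I * (Qf τ (ca m) + 2 * dot (ca m) (z + cb m))) * th m τ z := by
  unfold th
  rw [ca_zero, cb_zero, add_zero, hB.shift_per, zero_add]

theorem th_ne (hB : St_BAS) (hG : St_GAUGE) {τ : T3} (hτ : τ ∈ H2) (m : Ch) :
    ∃ z, th m τ z ≠ 0 := by
  have h := hG.den τ hτ 0
  have h1 : ∃ n, kk n τ ≠ 0 := by
    by_contra hn
    push Not at hn
    simp [den, hn] at h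
  obtain ⟨n, hn⟩ := h1
  refine ⟨0 + cb n + per τ 0 (ca n) - cb m - per τ 0 (ca m), fun h0 ↦ ?_⟩
  have h2 := th_tr hB τ m (0 + cb n + per τ 0 (ca n) - cb m - per τ 0 (ca m))
  rw [h0, mul_zero, show 0 + cb n + per τ 0 (ca n) - cb m - per τ 0 (ca m) + cb m +
    per τ 0 (ca m) = 0 + cb n + per τ 0 (ca n) by abel, th_tr hB] at h2
  exact (mul_ne_zero (exp_ne_zero _) hn) h2

theorem two_ne {f g : V2 → ℂ} (hf : Differentiable ℂ f) (hg : Differentiable ℂ g) {x y : V2}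
    (hx : f x ≠ 0) (hy : g y ≠ 0) : ∃ d, f d * g d ≠ 0 := by
  by_contra hn
  push Not at hn
  have hl : Differentiable ℂ fun t : ℂ ↦ x + t • (y - x) := by fun_prop
  have h1 : AnalyticOnNhd ℂ (fun t : ℂ ↦ f (x + t • (y - x))) Set.univ :=
    fun t _ ↦ (hf.comp hl).analyticAt t
  have h2 : AnalyticOnNhd ℂ (fun t : ℂ ↦ g (x + t • (y - x))) Set.univ :=
    fun t _ ↦ (hg.comp hl).analyticAt t
  rcases AnalyticOnNhd.eq_zero_or_eq_zero_of_mul_eq_zero h1 h2 (fun t _ ↦ hn _)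
    isPreconnected_univ with h | h
  · exact hx (by simpa using h 0 trivial)
  · exact hy (by simpa using h 1 trivial)

theorem step (hB : St_BAS) (hR : St_RIEM) (hG : St_GAUGE) {τ : T3} (hτ : τ ∈ H2) (e : Ch)
    (a b : V2) : ∃ c : Ch → ℂ, ∀ z, th e τ (z + a) * th 0 τ (z + b) =
      ∑ η, c η * (th η τ (z + (a + b)) * th (η + e) τ z) := by
  obtain ⟨s, -, hs⟩ := hR
  obtain ⟨x, hx⟩ := th_ne hB hG hτ 0
  obtain ⟨y, hy⟩ := th_ne hB hG hτ e
  obtain ⟨d, hd⟩ := two_ne (f := th 0 τ) (g := fun d ↦ th e τ (a + b - d)) (y := a + b - y)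
    (hB.diff_th 0 τ hτ) ((hB.diff_th e τ hτ).comp (by fun_prop)) hx (by simpa using hy)
  refine ⟨fun η ↦ s e 0 0 η * (th (η + e) τ (d - b) * th η τ (a - d)) /
    (4 * (th 0 τ d * th e τ (a + b - d))), fun z ↦ ?_⟩
  have h := hs τ hτ e 0 0 (z + (a + b)) z (d - b) (a - d)
  rw [show (1 / 2 : ℂ) • (z + (a + b) + z + (d - b) + (a - d)) = z + a by module,
    show (1 / 2 : ℂ) • (z + (a + b) + z - (d - b) - (a - d)) = z + b by module,
    show (1 / 2 : ℂ) • (z + (a + b) - z + (d - b) - (a - d)) = d by module,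
    show (1 / 2 : ℂ) • (z + (a + b) - z - (d - b) + (a - d)) = a + b - d by module] at h
  simp only [add_zero] at h
  have h4 : (4 : ℂ) * (th 0 τ d * th e τ (a + b - d)) ≠ 0 := mul_ne_zero (by norm_num) hd
  apply mul_left_cancel₀ h4
  rw [Finset.mul_sum]
  refine Eq.trans (by ring) (h.trans (Finset.sum_congr rfl fun η _ ↦ ?_))
  rw [← mul_assoc (4 * _), mul_div_cancel₀ _ h4]
  ring

theorem self_add (h : Ch) : h + h = 0 := by
  revert h
  decide

theorem hom_step {P : MvPolynomial Ch ℂ} {n : ℕ} {κ κ' : Ch} (c : ℂ) (h : Ch)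
    (hP : P.IsWeightedHomogeneous wt (n, κ)) (hκ : κ' = h + κ) :
    (C c * X h * P).IsWeightedHomogeneous wt (n + 1, κ') := by
  have h1 := ((isWeightedHomogeneous_C wt c).mul (isWeightedHomogeneous_X (R := ℂ) wt h)).mul hP
  rwa [show (0 : ℕ × Ch) + wt h + (n, κ) = (n + 1, κ') by
    simp [wt, hκ, add_comm]] at h1

theorem ind (hB : St_BAS) (hR : St_RIEM) (hG : St_GAUGE) {τ : T3} (hτ : τ ∈ H2) (e : Ch) (a : V2)
    (l : List V2) : ∃ P : Ch → MvPolynomial Ch ℂ,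
      (∀ h, (P h).IsWeightedHomogeneous wt (l.length, h + e)) ∧
      ∀ z, th e τ (z + a) * (l.map fun u ↦ th 0 τ (z + u)).prod =
        ∑ h, th h τ (z + (a + l.sum)) * eval (fun k ↦ th k τ z) (P h) := by
  induction l with
  | nil =>
    refine ⟨fun h ↦ if h = e then 1 else 0, fun h ↦ ?_, fun z ↦ ?_⟩
    · beta_reduce
      split_ifs with hh
      · rw [hh, self_add]
        exact isWeightedHomogeneous_one ℂ wt
      · exact isWeightedHomogeneous_zero ℂ wt _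
    · simp [apply_ite (eval _)]
  | cons b l ih =>
    obtain ⟨P, hP, hz⟩ := ih
    choose c hc using fun h ↦ step hB hR hG hτ h (a + l.sum) b
    refine ⟨fun η ↦ ∑ h, C (c h η) * X (η + h) * P h, fun η ↦ ?_, fun z ↦ ?_⟩
    · refine IsWeightedHomogeneous.sum _ _ _ fun h _ ↦ hom_step _ _ (hP h) ?_
      rw [add_assoc, ← add_assoc h, self_add, zero_add]
    · rw [List.map_cons, List.prod_cons, List.sum_cons, mul_comm (th 0 τ _), ← mul_assoc, hz,
        Finset.sum_mul, show a + (b + l.sum) = a + l.sum + b by abel]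
      simp only [map_sum, map_mul, eval_C, eval_X, Finset.mul_sum]
      rw [Finset.sum_comm]
      refine Finset.sum_congr rfl fun h _ ↦ ?_
      rw [mul_right_comm, hc, Finset.sum_mul]
      exact Finset.sum_congr rfl fun η _ ↦ by ring

end XRDC

open XRDC in
theorem st_RDC (hB : St_BAS) (hR : St_RIEM) (hG : St_GAUGE) : St_RDC := by
  rintro τ hτ n G ⟨l, rfl, hl, rfl⟩
  cases l with
  | nil => exact ⟨1, isWeightedHomogeneous_one ℂ wt, fun z ↦ by simp⟩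
  | cons a l =>
    obtain ⟨P, hP, hz⟩ := ind hB hR hG hτ 0 a l
    rw [List.sum_cons] at hl
    refine ⟨∑ h, C 1 * X h * P h, ?_, fun z ↦ ?_⟩
    · refine IsWeightedHomogeneous.sum _ _ _ fun h _ ↦ hom_step _ _ (hP h) ?_
      rw [add_zero, self_add]
    · beta_reduce
      rw [List.map_cons, List.prod_cons, hz, hl]
      simp

theorem st_RAT (hH : St_HERM) (hS : St_SPAN) (hR : St_RDC) (hA : St_AUT) :
    St_RAT := by
  intro τ hτ M D hL hM
  rcases Nat.eq_zero_or_pos D with rfl | hD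
  · have h0 : ∀ z, M z = 0 := fun z ↦ by
      by_contra hn
      have := hH.pos τ hτ _ hn
      rw [hM] at this
      simp at this
    exact ⟨0, fun m ↦ C (kk m τ), fun m ↦ isWeightedHomogeneous_C wt _, fun m z ↦ by
      simp [h0, kk, Qf]⟩
  obtain ⟨q, hq⟩ := hA τ hτ M D hL hM
  have key : ∀ F ∈ Submodule.span ℂ (Gs τ (4 * D)), ∃ P : MvPolynomial Ch ℂ,
      P.IsWeightedHomogeneous wt (4 * D, 0) ∧ ∀ z, F z = eval (fun h ↦ th h τ z) P := by
    intro F hF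
    induction hF using Submodule.span_induction with
    | mem G hG => exact hR τ hτ _ G hG
    | zero => exact ⟨0, isWeightedHomogeneous_zero ℂ wt _, fun z ↦ by simp⟩
    | add F G _ _ h1 h2 =>
      obtain ⟨P, hP, h1⟩ := h1
      obtain ⟨Q, hQ, h2⟩ := h2
      exact ⟨P + Q, hP.add hQ, fun z ↦ by simp [h1, h2]⟩
    | smul c F _ h1 =>
      obtain ⟨P, hP, h1⟩ := h1
      refine ⟨C c * P, ?_, fun z ↦ by simp [h1]⟩
      simpa using (isWeightedHomogeneous_C wt c).mul hP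
  choose P hP using fun m ↦ key _ (hS τ hτ _ (by omega) _ (hq m))
  exact ⟨q, P, fun m ↦ (hP m).1, fun m ↦ (hP m).2⟩

theorem th_RAT : St_RAT :=
  st_RAT th_HERM st_SPAN (st_RDC th_BAS th_RIEM th_GAUGE) (st_AUT th_BAS)

/-- the two halves of the weight condition -/
theorem hom_of {R : Type*} [CommSemiring R] {P : MvPolynomial Ch R} {n : ℕ} {κ : Ch}
    (h : P.IsWeightedHomogeneous wt (n, κ)) :
    P.IsHomogeneous n ∧ ∀ d ∈ P.support, ∑ k, d k • k = κ := by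
  have key : ∀ d : Ch →₀ ℕ, coeff d P ≠ 0 → ∑ k, d k = n ∧ ∑ k, d k • k = κ := fun d hd ↦ by
    have h1 := h hd
    rw [Finsupp.weight_apply, Finsupp.sum_fintype _ _ (fun _ ↦ by simp)] at h1
    have h2 := congrArg Prod.fst h1
    have h3 := congrArg Prod.snd h1
    rw [Prod.fst_sum] at h2
    rw [Prod.snd_sum] at h3
    exact ⟨by simpa [wt] using h2, by simpa [wt] using h3⟩
  refine ⟨fun d hd ↦ ?_, fun d hd ↦ (key d (mem_support_iff.1 hd)).2⟩
  rw [Finsupp.weight_apply, Finsupp.sum_fintype _ _ (fun _ ↦ by simp)]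
  simpa using (key d hd).1

/-- the same with the two conditions written separately -/
theorem th_RAT' {τ : T3} (hτ : τ ∈ H2) (M : V2 →ₗ[ℂ] V2) (D : ℕ) (hL : ∀ z ∈ Lat τ, M z ∈ Lat τ)
    (hH : ∀ u, Hn τ (M u) = D * Hn τ u) : ∃ (q : T3) (P : Ch → MvPolynomial Ch ℂ),
    (∀ m, (P m).IsHomogeneous (4 * D) ∧ ∀ d ∈ (P m).support, ∑ k, d k • k = 0) ∧ ∀ m z,
      th m τ ((2 : ℂ) • M z) * exp (Qf q z) = eval (fun h ↦ th h τ z) (P m) := by
  obtain ⟨q, P, h1, h2⟩ := th_RAT τ hτ M D hL hH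
  exact ⟨q, P, fun m ↦ hom_of (h1 m), h2⟩

end Pool.Agent.Lib.QM44
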